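import Mathlib

/-!
# Project PN, part BK: the estimate of the sums over the scales (helper933)
-/

set_option autoImplicit false
set_option linter.all false

namespace Pool.Agent.N933.PN.BKana

open Finset

theorem pw (y : ℝ) (hy : 0 ≤ y) (m : ℕ) (s : ℝ) (j : ℕ) (h : (m : ℝ) * s = j) :
    (y ^ m) ^ s = y ^ j := by
  rw [← Real.rpow_natCast y m, ← Real.rpow_mul hy, h, Real.rpow_natCast]

theorem pwn (y : ℝ) (hy : 0 ≤ y) (m : ℕ) (s : ℝ) (j : ℕ) (h : (m : ℝ) * s = j) :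
    (y ^ m) ^ (-s) = (y ^ j)⁻¹ := by
  rw [Real.rpow_neg (by positivity), pw y hy m s j h]

theorem root12 (x : ℝ) (hx : 0 < x) : ∃ y : ℝ, 0 < y ∧ y ^ 12 = x := by
  refine ⟨x ^ (1 / 12 : ℝ), Real.rpow_pos_of_pos hx _, ?_⟩
  rw [← Real.rpow_natCast, ← Real.rpow_mul hx.le]
  norm_num

theorem le12 {x y : ℝ} (hy : 0 < y) (h : x ^ 12 ≤ y ^ 12) : x ≤ y :=
  le_of_pow_le_pow_left₀ (by norm_num) hy.le h

theorem geo (q : ℝ) (hq : 1 < q) (K : ℕ) :
    ∑ k ∈ range (K + 1), q ^ k ≤ q ^ K * (q / (q - 1)) := by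
  have h1 : 0 < q - 1 := by linarith
  induction K with
  | zero =>
    simp only [zero_add, range_one, sum_singleton, pow_zero, one_mul]
    rw [le_div_iff₀ h1]
    linarith
  | succ K ih =>
    rw [Finset.sum_range_succ]
    have e : q ^ (K + 1) * (q / (q - 1)) = q ^ K * (q / (q - 1)) + q ^ (K + 1) := by
      field_simp
      ring
    rw [e]
    linarith

theorem sq (C p Q : ℝ) (hC : 0 ≤ C) (hQ : 0 ≤ Q) (h : p ≤ C * Q ^ 2) :
    Real.sqrt p ≤ Real.sqrt C * Q := by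
  refine (Real.sqrt_le_sqrt h).trans ?_
  rw [Real.sqrt_mul hC, Real.sqrt_sq hQ]

/-- One scale. -/
theorem step (C R A B P p : ℝ) (hC : 0 ≤ C) (hR : 0 < R) (hA : 0 < A) (hB : 0 < B) (hP : 0 < P)
    (h1 : P ^ 12 ≤ A ^ 12 → p ≤ C * ((R ^ 12 / P ^ 12) ^ (5 / 2 : ℝ) *
      (P ^ 12 / A ^ 12) ^ (1 / 2 : ℝ)))
    (h2 : A ^ 12 ≤ P ^ 12 → P ^ 12 ≤ B ^ 12 → p ≤ C * ((R ^ 12 / A ^ 12) ^ (5 / 2 : ℝ) *
      (A ^ 12 / P ^ 12) ^ (11 / 6 : ℝ)))
    (h3 : B ^ 12 ≤ P ^ 12 → p ≤ C * ((R ^ 12 / A ^ 12) ^ (5 / 2 : ℝ) *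
      (A ^ 12 / B ^ 12) ^ (11 / 6 : ℝ) * (B ^ 12 / P ^ 12) ^ (2 / 3 : ℝ))) :
    P ^ 12 * Real.sqrt p ≤ Real.sqrt C * (R ^ 15 * (1 / A ^ 3 + P / A ^ 4 +
      P ^ 8 / (A ^ 4 * B ^ 7))) := by
  have hs : 0 ≤ Real.sqrt C := Real.sqrt_nonneg _
  have t1 : 0 ≤ R ^ 15 * (1 / A ^ 3) := by positivity
  have t2 : 0 ≤ R ^ 15 * (P / A ^ 4) := by positivity
  have t3 : 0 ≤ R ^ 15 * (P ^ 8 / (A ^ 4 * B ^ 7)) := by positivity
  have t1' := mul_nonneg hs t1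
  have t2' := mul_nonneg hs t2
  have t3' := mul_nonneg hs t3
  have e : Real.sqrt C * (R ^ 15 * (1 / A ^ 3 + P / A ^ 4 + P ^ 8 / (A ^ 4 * B ^ 7))) =
      Real.sqrt C * (R ^ 15 * (1 / A ^ 3)) + Real.sqrt C * (R ^ 15 * (P / A ^ 4)) +
        Real.sqrt C * (R ^ 15 * (P ^ 8 / (A ^ 4 * B ^ 7))) := by ring
  rw [e]
  have hP12 : (0 : ℝ) ≤ P ^ 12 := by positivity
  have ex1 : ((12 : ℕ) : ℝ) * (5 / 2) = (30 : ℕ) := by norm_num
  have ex2 : ((12 : ℕ) : ℝ) * (1 / 2) = (6 : ℕ) := by norm_num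
  have ex3 : ((12 : ℕ) : ℝ) * (11 / 6) = (22 : ℕ) := by norm_num
  have ex4 : ((12 : ℕ) : ℝ) * (2 / 3) = (8 : ℕ) := by norm_num
  rcases le_total (P ^ 12) (A ^ 12) with hPA | hPA
  · have h := h1 hPA
    rw [← div_pow, ← div_pow, pw _ (by positivity) 12 _ 30 ex1, pw _ (by positivity) 12 _ 6 ex2]
      at h
    have h4 := sq C p ((R / P) ^ 15 * (P / A) ^ 3) hC (by positivity)
      (h.trans (le_of_eq (by ring)))
    have h5 := mul_le_mul_of_nonneg_left h4 hP12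
    have e5 : P ^ 12 * (Real.sqrt C * ((R / P) ^ 15 * (P / A) ^ 3)) =
        Real.sqrt C * (R ^ 15 * (1 / A ^ 3)) := by
      field_simp
    linarith
  · rcases le_total (P ^ 12) (B ^ 12) with hPB | hPB
    · have h := h2 hPA hPB
      rw [← div_pow, ← div_pow, pw _ (by positivity) 12 _ 30 ex1,
        pw _ (by positivity) 12 _ 22 ex3] at h
      have h4 := sq C p ((R / A) ^ 15 * (A / P) ^ 11) hC (by positivity)
        (h.trans (le_of_eq (by ring)))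
      have h5 := mul_le_mul_of_nonneg_left h4 hP12
      have e5 : P ^ 12 * (Real.sqrt C * ((R / A) ^ 15 * (A / P) ^ 11)) =
          Real.sqrt C * (R ^ 15 * (P / A ^ 4)) := by
        field_simp
      linarith
    · have h := h3 hPB
      rw [← div_pow, ← div_pow, ← div_pow, pw _ (by positivity) 12 _ 30 ex1,
        pw _ (by positivity) 12 _ 22 ex3, pw _ (by positivity) 12 _ 8 ex4] at h
      have h4 := sq C p ((R / A) ^ 15 * (A / B) ^ 11 * (B / P) ^ 4) hC (by positivity)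
        (h.trans (le_of_eq (by ring)))
      have h5 := mul_le_mul_of_nonneg_left h4 hP12
      have e5 : P ^ 12 * (Real.sqrt C * ((R / A) ^ 15 * (A / B) ^ 11 * (B / P) ^ 4)) =
          Real.sqrt C * (R ^ 15 * (P ^ 8 / (A ^ 4 * B ^ 7))) := by
        field_simp
      linarith

/-- The estimate. -/
theorem ana (S C1 C2 : ℝ) (hS : 0 < S) (hC1 : 0 < C1) (hC2 : 0 < C2) : ∃ C : ℝ, 0 < C ∧
    ∀ (δ : ℝ) (r a b : ℕ) (E : ℝ), 0 < δ → 1 ≤ r → r ≤ a → r ≤ b →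
    (a : ℝ) ≤ (max 1 S) / δ → (b : ℝ) ≤ (max 1 S) / δ → δ * r ≤ 1 → E ≤ 4 →
    (∀ K : ℕ, ((2 ^ K * r : ℕ) : ℝ) ≤ S / δ → S / δ < 2 * ((2 ^ K * r : ℕ) : ℝ) →
      ∃ (pe : ℝ) (p : ℕ → ℝ), pe ≤ C2 * ((r : ℝ) / a) ^ (1 / 2 : ℝ) ∧ (∀ k ≤ K,
        (2 ^ k * r ≤ a → p k ≤ C1 * (((r : ℝ) / ((2 ^ k * r : ℕ) : ℝ)) ^ (5 / 2 : ℝ) *
          (((2 ^ k * r : ℕ) : ℝ) / a) ^ (1 / 2 : ℝ))) ∧
        (a ≤ 2 ^ k * r → 2 ^ k * r ≤ b → p k ≤ C1 * (((r : ℝ) / a) ^ (5 / 2 : ℝ) *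
          ((a : ℝ) / ((2 ^ k * r : ℕ) : ℝ)) ^ (11 / 6 : ℝ))) ∧
        (b ≤ 2 ^ k * r → p k ≤ C1 * (((r : ℝ) / a) ^ (5 / 2 : ℝ) *
          ((a : ℝ) / b) ^ (11 / 6 : ℝ) * ((b : ℝ) / ((2 ^ k * r : ℕ) : ℝ)) ^ (2 / 3 : ℝ)))) ∧
        E ≤ (13 * δ * r * Real.sqrt pe + ∑ k ∈ range (K + 1),
          (26 + 4 / S) * δ * 2 ^ k * r * Real.sqrt (p k)) ^ 2) →
    E ≤ C * (δ ^ 2 * (1 + Real.log (1 / (δ * r))) ^ 2 * (r : ℝ) ^ (5 / 2 : ℝ) *
          (a : ℝ) ^ (-(1 / 2) : ℝ) +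
        δ ^ (2 / 3 : ℝ) * (r : ℝ) ^ (5 / 2 : ℝ) * (a : ℝ) ^ (-(2 / 3) : ℝ) *
          (b : ℝ) ^ (-(7 / 6) : ℝ)) := by
  obtain ⟨s, hs, hsS⟩ := root12 S hS
  obtain ⟨t, ht, htS⟩ := root12 (max 1 S) (lt_max_of_lt_left one_pos)
  obtain ⟨q, hq, hq2⟩ := root12 2 two_pos
  have hq1 : 1 < q := by
    by_contra hcon
    push Not at hcon
    have := pow_le_one₀ (n := 12) hq.le hcon
    rw [hq2] at this
    norm_num at this
  have hq8 : 1 < q ^ 8 := one_lt_pow₀ hq1 (by norm_num)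
  obtain ⟨G1, hG1⟩ : ∃ G1, G1 = q / (q - 1) := ⟨_, rfl⟩
  obtain ⟨G8, hG8⟩ : ∃ G8, G8 = q ^ 8 / (q ^ 8 - 1) := ⟨_, rfl⟩
  have hG1p : 0 < G1 := by
    rw [hG1]
    exact div_pos hq (by linarith)
  have hG8p : 0 < G8 := by
    rw [hG8]
    exact div_pos (by positivity) (by linarith)
  obtain ⟨c6, hc6⟩ : ∃ c6, c6 = 1 + (|Real.log S| + 1) / Real.log 2 := ⟨_, rfl⟩
  have hl2 : 0 < Real.log 2 := Real.log_pos (by norm_num)
  have hc6p : 0 < c6 := by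
    rw [hc6]
    positivity
  obtain ⟨A', hA'⟩ : ∃ A', A' = 26 + 4 / S := ⟨_, rfl⟩
  have hA'p : 0 < A' := by
    rw [hA']
    positivity
  have hs1 : 0 < Real.sqrt C1 := Real.sqrt_pos.2 hC1
  have hs2 : 0 < Real.sqrt C2 := Real.sqrt_pos.2 hC2
  obtain ⟨c1, hc1⟩ : ∃ c1, c1 = 13 * Real.sqrt C2 + A' * Real.sqrt C1 * c6 := ⟨_, rfl⟩
  obtain ⟨c2, hc2⟩ : ∃ c2, c2 = A' * Real.sqrt C1 * ((t / s) ^ 7 * G1 + G8) := ⟨_, rfl⟩
  have hc1p : 0 < c1 := by
    rw [hc1]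
    positivity
  have hc2p : 0 < c2 := by
    rw [hc2]
    positivity
  refine ⟨2 * c1 ^ 2 + 2 * c2 ^ 2 * s ^ 16 + 4 * (t ^ 22 / s ^ 30), by positivity, ?_⟩
  intro δ r a b E hδ hr hra hrb ha hb hδr hE4 hK
  have hr0 : (0 : ℝ) < r := by exact_mod_cast hr
  have ha0 : (0 : ℝ) < a := by exact_mod_cast (lt_of_lt_of_le hr hra)
  have hb0 : (0 : ℝ) < b := by exact_mod_cast (lt_of_lt_of_le hr hrb)
  obtain ⟨Δ, hΔ, hΔδ⟩ := root12 δ hδ
  obtain ⟨R, hR, hRr⟩ := root12 r hr0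
  obtain ⟨A, hA, hAa⟩ := root12 a ha0
  obtain ⟨B, hB, hBb⟩ := root12 b hb0
  have hLg : 0 ≤ Real.log (1 / (δ * r)) := by
    apply Real.log_nonneg
    rw [le_div_iff₀ (by positivity)]
    linarith
  obtain ⟨L, hL⟩ : ∃ L, L = 1 + Real.log (1 / (δ * r)) := ⟨_, rfl⟩
  have hL1 : 1 ≤ L := by
    rw [hL]
    linarith
  have hAt : A ≤ t / Δ := by
    apply le12 (by positivity)
    rw [div_pow, hAa, htS, hΔδ]
    exact ha
  have hBt : B ≤ t / Δ := by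
    apply le12 (by positivity)
    rw [div_pow, hBb, htS, hΔδ]
    exact hb
  -- the right hand side
  have eR : (r : ℝ) ^ (5 / 2 : ℝ) = R ^ 30 := by
    rw [← hRr]
    exact pw _ hR.le 12 _ 30 (by norm_num)
  have eA2 : (a : ℝ) ^ (-(1 / 2) : ℝ) = (A ^ 6)⁻¹ := by
    rw [← hAa]
    exact pwn _ hA.le 12 _ 6 (by norm_num)
  have eA3 : (a : ℝ) ^ (-(2 / 3) : ℝ) = (A ^ 8)⁻¹ := by
    rw [← hAa]
    exact pwn _ hA.le 12 _ 8 (by norm_num)
  have eB : (b : ℝ) ^ (-(7 / 6) : ℝ) = (B ^ 14)⁻¹ := by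
    rw [← hBb]
    exact pwn _ hB.le 12 _ 14 (by norm_num)
  have eδ : δ ^ (2 / 3 : ℝ) = Δ ^ 8 := by
    rw [← hΔδ]
    exact pw _ hΔ.le 12 _ 8 (by norm_num)
  rw [eR, eA2, eA3, eB, eδ, ← hL]
  have T1 : 0 ≤ δ ^ 2 * L ^ 2 * R ^ 30 * (A ^ 6)⁻¹ := by positivity
  have T2 : 0 ≤ Δ ^ 8 * R ^ 30 * (A ^ 8)⁻¹ * (B ^ 14)⁻¹ := by positivity
  by_cases hrn : (r : ℝ) ≤ S / δ
  · -- the largest scale
    have hex : ∃ K : ℕ, S / δ < 2 * ((2 ^ K * r : ℕ) : ℝ) := by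
      obtain ⟨K, hK⟩ := pow_unbounded_of_one_lt (S / δ) (one_lt_two (α := ℝ))
      refine ⟨K, hK.trans_le ?_⟩
      push_cast
      have h1 : (1 : ℝ) ≤ r := by exact_mod_cast hr
      have h2 : (0 : ℝ) < 2 ^ K := by positivity
      nlinarith
    classical
    obtain ⟨K, hK1, hK2⟩ : ∃ K : ℕ, ((2 ^ K * r : ℕ) : ℝ) ≤ S / δ ∧
        S / δ < 2 * ((2 ^ K * r : ℕ) : ℝ) := by
      refine ⟨Nat.find hex, ?_, Nat.find_spec hex⟩
      rcases Nat.eq_zero_or_pos (Nat.find hex) with h0 | h0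
      · rw [h0, pow_zero, one_mul]
        exact hrn
      · have h1 := Nat.find_min hex (m := Nat.find hex - 1) (by omega)
        push Not at h1
        refine le_trans (le_of_eq ?_) h1
        have h2 : 2 ^ (Nat.find hex) = 2 * 2 ^ (Nat.find hex - 1) := by
          rw [← pow_succ', Nat.sub_add_cancel h0]
        rw [h2]
        push_cast
        ring
    obtain ⟨pe, p, hpe, hp, hE⟩ := hK K hK1 hK2
    obtain ⟨N, hN⟩ : ∃ N, N = s / Δ := ⟨_, rfl⟩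
    have hNp : 0 < N := by
      rw [hN]
      positivity
    have hN12 : N ^ 12 = S / δ := by
      rw [hN, div_pow, hsS, hΔδ]
    have hPk : ∀ k : ℕ, ((2 ^ k * r : ℕ) : ℝ) = (q ^ k * R) ^ 12 := by
      intro k
      rw [mul_pow, hRr, ← pow_mul, mul_comm k 12, pow_mul, hq2]
      push_cast
      ring
    have hPK : q ^ K * R ≤ N := by
      apply le12 hNp
      rw [← hPk, hN12]
      exact hK1
    -- the single scales
    have hstep : ∀ k ≤ K, (q ^ k * R) ^ 12 * Real.sqrt (p k) ≤ Real.sqrt C1 *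
        (R ^ 15 * (1 / A ^ 3 + (q ^ k * R) / A ^ 4 + (q ^ k * R) ^ 8 / (A ^ 4 * B ^ 7))) := by
      intro k hk
      obtain ⟨g1, g2, g3⟩ := hp k hk
      refine step C1 R A B (q ^ k * R) (p k) hC1.le hR hA hB (by positivity) ?_ ?_ ?_
      · intro h
        rw [← hPk, hAa] at h
        have := g1 (by exact_mod_cast h)
        rw [hPk, ← hRr, ← hAa] at this
        exact this
      · intro h h'
        rw [← hPk, hAa] at h
        rw [← hPk, hBb] at h'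
        have := g2 (by exact_mod_cast h) (by exact_mod_cast h')
        rw [hPk, ← hRr, ← hAa] at this
        exact this
      · intro h
        rw [← hPk, hBb] at h
        have := g3 (by exact_mod_cast h)
        rw [hPk, ← hRr, ← hAa, ← hBb] at this
        exact this
    -- the sum
    have hsum : ∑ k ∈ range (K + 1), (26 + 4 / S) * δ * 2 ^ k * r * Real.sqrt (p k) ≤
        A' * δ * (Real.sqrt C1 * (R ^ 15 * (((K : ℝ) + 1) / A ^ 3 + (N * G1) / A ^ 4 +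
          (N ^ 8 * G8) / (A ^ 4 * B ^ 7)))) := by
      have h1 : ∀ k ∈ range (K + 1), (26 + 4 / S) * δ * 2 ^ k * r * Real.sqrt (p k) ≤
          A' * δ * (Real.sqrt C1 * (R ^ 15 * (1 / A ^ 3 + (q ^ k * R) / A ^ 4 +
            (q ^ k * R) ^ 8 / (A ^ 4 * B ^ 7)))) := by
        intro k hk
        have h2 := hstep k (by rw [mem_range] at hk; omega)
        have h3 := mul_le_mul_of_nonneg_left h2 (show 0 ≤ A' * δ by positivity)
        refine le_trans (le_of_eq ?_) h3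
        rw [← hPk, ← hA']
        push_cast
        ring
      refine (Finset.sum_le_sum h1).trans ?_
      rw [← Finset.mul_sum, ← Finset.mul_sum, ← Finset.mul_sum, Finset.sum_add_distrib,
        Finset.sum_add_distrib, Finset.sum_const, card_range, ← Finset.sum_div, ← Finset.sum_div,
        ← Finset.sum_mul]
      have h4 : (∑ k ∈ range (K + 1), q ^ k) * R ≤ N * G1 := by
        have h5 := geo q hq1 K
        rw [← hG1] at h5
        calc (∑ k ∈ range (K + 1), q ^ k) * R ≤ (q ^ K * G1) * R :=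
              mul_le_mul_of_nonneg_right h5 hR.le
          _ = (q ^ K * R) * G1 := by ring
          _ ≤ N * G1 := mul_le_mul_of_nonneg_right hPK hG1p.le
      have h6 : ∑ k ∈ range (K + 1), (q ^ k * R) ^ 8 ≤ N ^ 8 * G8 := by
        have h5 := geo (q ^ 8) hq8 K
        rw [← hG8] at h5
        have h7 : ∀ k, (q ^ k * R) ^ 8 = (q ^ 8) ^ k * R ^ 8 := by
          intro k
          rw [mul_pow, ← pow_mul, ← pow_mul, mul_comm k 8]
        calc ∑ k ∈ range (K + 1), (q ^ k * R) ^ 8 = (∑ k ∈ range (K + 1), (q ^ 8) ^ k) * R ^ 8 := by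
              rw [Finset.sum_mul]
              exact Finset.sum_congr rfl fun k _ => h7 k
          _ ≤ ((q ^ 8) ^ K * G8) * R ^ 8 := mul_le_mul_of_nonneg_right h5 (by positivity)
          _ = (q ^ K * R) ^ 8 * G8 := by rw [h7]; ring
          _ ≤ N ^ 8 * G8 := mul_le_mul_of_nonneg_right
              (pow_le_pow_left₀ (by positivity) hPK 8) hG8p.le
      have h8 : (K + 1) • (1 / A ^ 3) = ((K : ℝ) + 1) / A ^ 3 := by
        rw [nsmul_eq_mul]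
        push_cast
        ring
      rw [h8]
      have h9 := div_le_div_of_nonneg_right h4 (show 0 ≤ A ^ 4 by positivity)
      have h10 := div_le_div_of_nonneg_right h6 (show 0 ≤ A ^ 4 * B ^ 7 by positivity)
      refine mul_le_mul_of_nonneg_left (mul_le_mul_of_nonneg_left
        (mul_le_mul_of_nonneg_left ?_ (by positivity)) hs1.le) (by positivity)
      linarith
    -- number of the scales
    have hKL : (K : ℝ) + 1 ≤ c6 * L := by
      have h1 : (2 : ℝ) ^ K ≤ S * (1 / (δ * r)) := by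
        have h2 := hK1
        push_cast at h2
        rw [mul_one_div, le_div_iff₀ (by positivity)]
        rw [le_div_iff₀ hδ] at h2
        linarith
      have h3 := Real.log_le_log (by positivity) h1
      rw [Real.log_pow, Real.log_mul hS.ne' (by positivity)] at h3
      have h4 : (K : ℝ) ≤ (|Real.log S| + (L - 1)) / Real.log 2 := by
        rw [le_div_iff₀ hl2]
        have := le_abs_self (Real.log S)
        rw [hL]
        linarith
      have h5 : (|Real.log S| + (L - 1)) / Real.log 2 ≤ ((|Real.log S| + 1) / Real.log 2) * L := by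
        rw [div_mul_eq_mul_div]
        apply div_le_div_of_nonneg_right _ hl2.le
        have := abs_nonneg (Real.log S)
        nlinarith
      rw [hc6]
      linarith
    -- the examined blocks
    have hX1 : 13 * δ * r * Real.sqrt pe ≤ 13 * Real.sqrt C2 * (δ * R ^ 15 / A ^ 3) := by
      rw [← hRr, ← hAa, ← div_pow, pw _ (by positivity) 12 _ 6 (by norm_num)] at hpe
      have h1 := sq C2 pe ((R / A) ^ 3) hC2.le (by positivity) (hpe.trans (le_of_eq (by ring)))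
      have h2 := mul_le_mul_of_nonneg_left h1 (show 0 ≤ 13 * δ * r by positivity)
      refine h2.trans (le_of_eq ?_)
      rw [← hRr]
      field_simp
    have hNB : N / A ^ 4 ≤ (t / s) ^ 7 * (N ^ 8 / (A ^ 4 * B ^ 7)) := by
      have h1 : B ≤ (t / s) * N := by
        rw [hN]
        refine hBt.trans (le_of_eq ?_)
        field_simp
      have h2 : B ^ 7 ≤ (t / s) ^ 7 * N ^ 7 := by
        rw [← mul_pow]
        exact pow_le_pow_left₀ hB.le h1 7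
      have h3 : (t / s) ^ 7 * (N ^ 8 / (A ^ 4 * B ^ 7)) =
          N / A ^ 4 * (((t / s) ^ 7 * N ^ 7) / B ^ 7) := by
        have hs' := hs.ne'
        have hB' := hB.ne'
        have hA' := hA.ne'
        generalize (t / s) ^ 7 = T
        field_simp
      rw [h3]
      refine le_mul_of_one_le_right (by positivity) ?_
      rw [le_div_iff₀ (by positivity), one_mul]
      exact h2
    obtain ⟨X, hX⟩ : ∃ X, X = c1 * (L * (δ * R ^ 15 / A ^ 3)) := ⟨_, rfl⟩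
    obtain ⟨Y, hY⟩ : ∃ Y, Y = c2 * (δ * R ^ 15 * (N ^ 8 / (A ^ 4 * B ^ 7))) := ⟨_, rfl⟩
    have hXY : 13 * δ * r * Real.sqrt pe + ∑ k ∈ range (K + 1),
        (26 + 4 / S) * δ * 2 ^ k * r * Real.sqrt (p k) ≤ X + Y := by
      have h1 : 13 * Real.sqrt C2 * (δ * R ^ 15 / A ^ 3) ≤
          13 * Real.sqrt C2 * (L * (δ * R ^ 15 / A ^ 3)) :=
        mul_le_mul_of_nonneg_left (le_mul_of_one_le_left (by positivity) hL1) (by positivity)
      have h2 : A' * δ * (Real.sqrt C1 * (R ^ 15 * (((K : ℝ) + 1) / A ^ 3 + (N * G1) / A ^ 4 +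
          (N ^ 8 * G8) / (A ^ 4 * B ^ 7)))) =
          A' * Real.sqrt C1 * (((K : ℝ) + 1) * (δ * R ^ 15 / A ^ 3)) +
          A' * Real.sqrt C1 * (δ * R ^ 15) * (G1 * (N / A ^ 4) +
            G8 * (N ^ 8 / (A ^ 4 * B ^ 7))) := by ring
      have h3 : A' * Real.sqrt C1 * (((K : ℝ) + 1) * (δ * R ^ 15 / A ^ 3)) ≤
          A' * Real.sqrt C1 * ((c6 * L) * (δ * R ^ 15 / A ^ 3)) :=
        mul_le_mul_of_nonneg_left (mul_le_mul_of_nonneg_right hKL (by positivity)) (by positivity)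
      have h4 : A' * Real.sqrt C1 * (δ * R ^ 15) * (G1 * (N / A ^ 4) +
            G8 * (N ^ 8 / (A ^ 4 * B ^ 7))) ≤
          A' * Real.sqrt C1 * (δ * R ^ 15) * (G1 * ((t / s) ^ 7 * (N ^ 8 / (A ^ 4 * B ^ 7))) +
            G8 * (N ^ 8 / (A ^ 4 * B ^ 7))) :=
        mul_le_mul_of_nonneg_left (by linarith [mul_le_mul_of_nonneg_left hNB hG1p.le])
          (by positivity)
      have h5 : X + Y = 13 * Real.sqrt C2 * (L * (δ * R ^ 15 / A ^ 3)) +
          A' * Real.sqrt C1 * ((c6 * L) * (δ * R ^ 15 / A ^ 3)) +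
          A' * Real.sqrt C1 * (δ * R ^ 15) * (G1 * ((t / s) ^ 7 * (N ^ 8 / (A ^ 4 * B ^ 7))) +
            G8 * (N ^ 8 / (A ^ 4 * B ^ 7))) := by
        rw [hX, hY, hc1, hc2]
        ring
      rw [h5]
      linarith
    have hpos : 0 ≤ 13 * δ * r * Real.sqrt pe + ∑ k ∈ range (K + 1),
        (26 + 4 / S) * δ * 2 ^ k * r * Real.sqrt (p k) := by
      have : ∀ k ∈ range (K + 1), 0 ≤ (26 + 4 / S) * δ * 2 ^ k * r * Real.sqrt (p k) :=
        fun k _ => by positivity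
      have := Finset.sum_nonneg this
      have : 0 ≤ 13 * δ * r * Real.sqrt pe := by positivity
      linarith
    have hE2 : E ≤ 2 * X ^ 2 + 2 * Y ^ 2 := by
      refine hE.trans ((pow_le_pow_left₀ hpos hXY 2).trans ?_)
      nlinarith [sq_nonneg (X - Y)]
    have eX : X ^ 2 = c1 ^ 2 * (δ ^ 2 * L ^ 2 * R ^ 30 * (A ^ 6)⁻¹) := by
      rw [hX]
      field_simp
    have eY : Y ^ 2 = c2 ^ 2 * s ^ 16 * (Δ ^ 8 * R ^ 30 * (A ^ 8)⁻¹ * (B ^ 14)⁻¹) := by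
      rw [hY, hN, ← hΔδ]
      field_simp
    rw [eX, eY] at hE2
    have hc2' : 0 ≤ 2 * c2 ^ 2 * s ^ 16 + 4 * (t ^ 22 / s ^ 30) := by positivity
    have hc1' : 0 ≤ 2 * c1 ^ 2 + 4 * (t ^ 22 / s ^ 30) := by positivity
    have f1 := mul_nonneg hc2' T1
    have f2 := mul_nonneg hc1' T2
    refine hE2.trans (le_of_sub_nonneg ?_)
    refine le_trans (add_nonneg f1 f2) (le_of_eq ?_)
    ring
  · -- the trivial case
    push Not at hrn
    have hRs : s / Δ ≤ R := by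
      apply le12 hR
      rw [div_pow, hsS, hΔδ, hRr]
      exact hrn.le
    have h1 : s ^ 30 / t ^ 22 ≤ Δ ^ 8 * R ^ 30 * (A ^ 8)⁻¹ * (B ^ 14)⁻¹ := by
      have h2 : (s / Δ) ^ 30 ≤ R ^ 30 := pow_le_pow_left₀ (by positivity) hRs 30
      have h3 : A ^ 8 ≤ (t / Δ) ^ 8 := pow_le_pow_left₀ hA.le hAt 8
      have h4 : B ^ 14 ≤ (t / Δ) ^ 14 := pow_le_pow_left₀ hB.le hBt 14
      have h5 : ((t / Δ) ^ 8)⁻¹ ≤ (A ^ 8)⁻¹ := inv_anti₀ (by positivity) h3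
      have h6 : ((t / Δ) ^ 14)⁻¹ ≤ (B ^ 14)⁻¹ := inv_anti₀ (by positivity) h4
      have e1 : s ^ 30 / t ^ 22 = Δ ^ 8 * (s / Δ) ^ 30 * ((t / Δ) ^ 8)⁻¹ * ((t / Δ) ^ 14)⁻¹ := by
        field_simp
      rw [e1]
      gcongr
    have h7 : 4 ≤ 4 * (t ^ 22 / s ^ 30) * (Δ ^ 8 * R ^ 30 * (A ^ 8)⁻¹ * (B ^ 14)⁻¹) := by
      have h8 := mul_le_mul_of_nonneg_left h1 (show 0 ≤ 4 * (t ^ 22 / s ^ 30) by positivity)
      refine le_trans (le_of_eq ?_) h8
      field_simp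
    have f1 : 0 ≤ (2 * c1 ^ 2 + 2 * c2 ^ 2 * s ^ 16 + 4 * (t ^ 22 / s ^ 30)) *
        (δ ^ 2 * L ^ 2 * R ^ 30 * (A ^ 6)⁻¹) := mul_nonneg (by positivity) T1
    have f2 : 0 ≤ (2 * c1 ^ 2 + 2 * c2 ^ 2 * s ^ 16) *
        (Δ ^ 8 * R ^ 30 * (A ^ 8)⁻¹ * (B ^ 14)⁻¹) := mul_nonneg (by positivity) T2
    refine hE4.trans (h7.trans ?_)
    refine le_of_sub_nonneg (le_trans (add_nonneg f1 f2) (le_of_eq ?_))
    ring

end Pool.Agent.N933.PN.BKana
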