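import Pool.Agent.N931.PN.Stm5
import Pool.Agent.N862.PN.WSP
import Pool.Agent.H389R2.NS.Pair2
import Pool.Agent.N933.PN.BKana

/-!
# Project PN (helper931), part BK: one block (helper933)
-/

set_option autoImplicit false
set_option linter.all false

namespace Pool.Agent.N933.PN.BK

open H974 H12S H389NS H984N H984P H342P Finset
open Pool.Agent.N116.EW Pool.Agent.N931.PN
open H342L (cdist Curve)

theorem main : S_DIFB → S_MK → S_CH → S_EX2 → S_BK := by
  intro hDIFB hMK hCH hEX2 R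
  obtain ⟨κ1, δ1, hκ1, hδ1, hfar⟩ := Pool.Agent.N862.PN.WSP.far R
  obtain ⟨κ2, S, δ2, hκ2, hS, hδ2, -, hshape⟩ := R.shape
  obtain ⟨κ, hκd⟩ : ∃ κ, κ = min κ2 (κ1 / S) := ⟨_, rfl⟩
  have hκ : 0 < κ := by
    rw [hκd]
    exact lt_min hκ2 (div_pos hκ1 hS)
  have hκ2' : κ ≤ κ2 := by
    rw [hκd]
    exact min_le_left _ _
  have hκ1' : κ * S ≤ κ1 := by
    have : κ ≤ κ1 / S := by
      rw [hκd]
      exact min_le_right _ _
    rwa [le_div_iff₀ hS] at this
  obtain ⟨C1, hC1, hch⟩ := hCH κ hκ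
  obtain ⟨C2, hC2, hex⟩ := hEX2
  obtain ⟨C, hC, hana⟩ := BKana.ana S C1 C2 hS hC1 hC2
  refine ⟨C, min (min δ1 δ2) S, hC, lt_min (lt_min hδ1 hδ2) hS, ?_⟩
  intro δ x hδ hδ0 hx0 hx1 f hlp r hr hδr hxr z B hz hB
  have hδ1' : δ ≤ δ1 := hδ0.trans ((min_le_left _ _).trans (min_le_left _ _))
  have hδ2' : δ ≤ δ2 := hδ0.trans ((min_le_left _ _).trans (min_le_right _ _))
  have hδS : δ ≤ S := hδ0.trans (min_le_right _ _)
  have hn : 1 ≤ S / δ := by
    rw [le_div_iff₀ hδ]
    linarith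
  have hn0 : 0 < S / δ := by linarith
  have hsh : (R.dm δ).Shape κ (S / δ) := by
    have h := hshape δ hδ hδ2'
    have h1 : κ * (S / δ) ≤ κ2 * (S / δ) := mul_le_mul_of_nonneg_right hκ2' hn0.le
    exact ⟨h.ok, h1.trans h.l_ge, h1.trans h.r_ge, h1.trans h.h_ge, h.w_le, h.h_le⟩
  have hok := hsh.ok
  have hFar : FarP (R.dm δ) κ (S / δ) := by
    intro i j hij
    have h1 := hfar δ hδ hδ1' i j hij
    refine le_trans ?_ h1
    rw [← mul_div_assoc]
    exact div_le_div_of_nonneg_right hκ1' hδ.le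
  have hρ : ∀ e ∈ (R.dm δ).edges, 0 ≤ (fun _ : Edg => x) e ∧ (fun _ : Edg => x) e ≤ 1 :=
    fun e _ => ⟨hx0, hx1.le⟩
  have hm : S / δ ≤ max 1 S / δ := div_le_div_of_nonneg_right (le_max_right _ _) hδ.le
  have hrm : (r : ℝ) ≤ max 1 S / δ := by
    rw [le_div_iff₀ hδ]
    refine le_trans ?_ (le_max_left _ _)
    linarith
  have hh := hsh.h_le
  have hw := hsh.w_le
  have hz1 := hz.1.1
  have hz2 := hz.1.2
  have hz3 := hz.2.1
  have hz4 := hz.2.2
  have toN : ∀ m : ℤ, (m : ℝ) ≤ S / δ → ((m.toNat : ℕ) : ℝ) ≤ max 1 S / δ := by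
    intro m hm'
    rcases le_total 0 m with h0 | h0
    · have : ((m.toNat : ℕ) : ℝ) = (m : ℝ) := by
        exact_mod_cast Int.toNat_of_nonneg h0
      rw [this]
      exact hm'.trans hm
    · rw [Int.toNat_of_nonpos h0, Nat.cast_zero]
      exact hn0.le.trans hm
  have ha : ((d1 (R.dm δ) r z : ℕ) : ℝ) ≤ max 1 S / δ := by
    unfold d1
    rw [Nat.cast_max]
    refine max_le hrm (toN _ ?_)
    refine le_trans ?_ hh
    have h1 : (R.dm δ).bd z ≤ z.2 := (min_le_right _ _).trans (min_le_left _ _)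
    exact_mod_cast h1.trans hz4
  have hb : ((d2 (R.dm δ) r z : ℕ) : ℝ) ≤ max 1 S / δ := by
    unfold d2
    rw [Nat.cast_max]
    refine max_le hrm (toN _ ?_)
    have h1 : qd (R.dm δ) z ≤ sd z (0, 0) := (min_le_right _ _).trans (min_le_right _ _)
    have h2 : sd z (0, 0) ≤ max ((R.dm δ).r - (R.dm δ).l) (R.dm δ).h := by
      unfold sd
      have hl := hok.l_neg
      have hrp := hok.r_pos
      simp only [sub_zero]
      refine max_le_max ?_ ?_
      · rw [abs_le]
        constructor <;> linarith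
      · rw [abs_of_nonneg hz3]
        exact hz4
    have h3 : ((qd (R.dm δ) z : ℤ) : ℝ) ≤
        max (((R.dm δ).r - (R.dm δ).l : ℤ) : ℝ) ((R.dm δ).h : ℝ) := by
      exact_mod_cast h1.trans h2
    exact h3.trans (max_le hw hh)
  have hbd : ∀ F, |hf R δ f F - hf R δ f (F \ B)| ≤ 2 := by
    intro F
    have h3 := hlp.2 ⟨R.curve δ F⟩
    have h4 := hlp.2 ⟨R.curve δ (F \ B)⟩
    unfold hf
    rw [abs_le] at h3 h4 ⊢
    constructor <;> linarith [h3.1, h3.2, h4.1, h4.2]
  have hE4 : E2 (fun _ => x) (R.dm δ).edges (fun F F' => (hf R δ f F - hf R δ f (F \ B)) *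
      (hf R δ f F' - hf R δ f (F' \ B))) ≤ 4 := by
    rw [← H389NS.A7.E2_const (fun _ => x) (R.dm δ).edges 4]
    refine E2_mono hρ fun F F' _ _ => ?_
    have h1 := hbd F
    have h2 := hbd F'
    refine (le_abs_self _).trans ?_
    rw [abs_mul]
    have := mul_le_mul h1 h2 (abs_nonneg _) (by norm_num)
    linarith
  refine hana δ r (d1 (R.dm δ) r z) (d2 (R.dm δ) r z) _ hδ hr (le_max_left _ _)
    (le_max_left _ _) ha hb hδr hE4 ?_
  intro K hK1 hK2
  refine ⟨P2 (fun _ => x) (R.dm δ).edges (EX (R.dm δ) B) (EX (R.dm δ) B),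
    fun k => P2 (fun _ => x) (R.dm δ).edges (LG (R.dm δ) B (2 ^ k * r))
      (LG (R.dm δ) B (2 ^ k * r)), hex (R.dm δ) hok z B r hz hr hB x hx0 hx1 hxr,
    fun k hk => ?_, ?_⟩
  · have h1 : 2 ^ k * r ≤ 2 ^ K * r :=
      Nat.mul_le_mul_right _ (Nat.pow_le_pow_right (by norm_num) hk)
    have h2 : ((2 ^ k * r : ℕ) : ℝ) ≤ S / δ := by
      refine le_trans ?_ hK1
      exact_mod_cast h1
    exact hch (S / δ) (R.dm δ) hn hsh hFar z B r (2 ^ k * r) hz hr
      (Nat.le_mul_of_pos_left _ (by positivity)) h2 hB x hx0 hx1 hxr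
  · have h1 := hMK (fun _ => x) (R.dm δ).edges hρ (K + 1)
      (fun k => Nat.casesOn k (13 * δ * r) (fun j => (26 + 4 / S) * δ * 2 ^ j * r))
      (fun k => Nat.casesOn k (EX (R.dm δ) B) (fun j => LG (R.dm δ) B (2 ^ j * r)))
      (fun F => hf R δ f F - hf R δ f (F \ B)) (by
        intro k
        cases k with
        | zero =>
          show 0 ≤ 13 * δ * (r : ℝ)
          positivity
        | succ j =>
          show 0 ≤ (26 + 4 / S) * δ * 2 ^ j * (r : ℝ)
          positivity) (by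
        intro F hF
        have h2 := hDIFB R δ hδ hok f hlp.1 hlp.2 B F hF r K hr
        rw [Finset.sum_range_succ']
        show |hf R δ f F - hf R δ f (F \ B)| ≤ ∑ j ∈ range (K + 1),
          (26 + 4 / S) * δ * 2 ^ j * (r : ℝ) * ind (LG (R.dm δ) B (2 ^ j * r) F) +
            13 * δ * (r : ℝ) * ind (EX (R.dm δ) B F)
        rw [Finset.sum_range_succ]
        have h3 : ∑ j ∈ range K, 26 * δ * 2 ^ j * (r : ℝ) * ind (LG (R.dm δ) B (2 ^ j * r) F) ≤
            ∑ j ∈ range K, (26 + 4 / S) * δ * 2 ^ j * (r : ℝ) *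
              ind (LG (R.dm δ) B (2 ^ j * r) F) := by
          refine Finset.sum_le_sum fun j _ => ?_
          have h4 := ind_nonneg (LG (R.dm δ) B (2 ^ j * r) F)
          refine mul_le_mul_of_nonneg_right ?_ h4
          have h5 : (0 : ℝ) ≤ 4 / S := by positivity
          have h6 : (0 : ℝ) ≤ δ * 2 ^ j * (r : ℝ) := by positivity
          nlinarith
        have h7 : 2 * ind (LG (R.dm δ) B (2 ^ K * r) F) ≤
            (26 + 4 / S) * δ * 2 ^ K * (r : ℝ) * ind (LG (R.dm δ) B (2 ^ K * r) F) := by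
          have h4 := ind_nonneg (LG (R.dm δ) B (2 ^ K * r) F)
          refine mul_le_mul_of_nonneg_right ?_ h4
          have h8 := hK2
          rw [div_lt_iff₀ hδ] at h8
          push_cast at h8
          have h9 : 2 ≤ 4 / S * (δ * 2 ^ K * (r : ℝ)) := by
            rw [div_mul_eq_mul_div, le_div_iff₀ hS]
            linarith
          have h10 : (0 : ℝ) ≤ δ * 2 ^ K * (r : ℝ) := by positivity
          linarith
        unfold hf
        linarith)
    rw [Finset.sum_range_succ'] at h1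
    exact h1.trans (le_of_eq (congrArg (fun y : ℝ => y ^ 2) (add_comm _ _)))

end Pool.Agent.N933.PN.BK
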